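import Pool.Agent.Helper84.HD.St

/-!
# HD MODULE CR: the criterion
-/

set_option autoImplicit false

namespace Pool.Agent.Helper84.HD

open Finset Filter Topology
open Pool.Agent.Helper4.DE (C Lg LogDens IsMultClosed t C_nonneg C_le Lg_nonneg eventually_gt
  logDens_of_multClosed)

theorem C_mono {S T : Set ℕ} {N : ℕ} (h : ∀ n, 0 < n → n ≤ N → n ∈ S → n ∈ T) :
    C S N ≤ C T N := by
  classical
  unfold C
  have : (Ioc 0 N).filter (· ∈ S) ⊆ (Ioc 0 N).filter (· ∈ T) := by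
    intro n hn
    rw [mem_filter, mem_Ioc] at *
    exact ⟨hn.1, h n hn.1.1 hn.1.2 hn.2⟩
  exact_mod_cast card_le_card this

theorem C_le_add {W S T : Set ℕ} {N : ℕ} (h : ∀ n, n ∈ W → n ∈ S ∨ n ∈ T) :
    C W N ≤ C S N + C T N := by
  classical
  unfold C
  have : (Ioc 0 N).filter (· ∈ W) ⊆ (Ioc 0 N).filter (· ∈ S) ∪ (Ioc 0 N).filter (· ∈ T) := by
    intro n hn
    rw [mem_filter] at hn
    rw [mem_union, mem_filter, mem_filter]
    rcases h n hn.2 with h | h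
    · exact Or.inl ⟨hn.1, h⟩
    · exact Or.inr ⟨hn.1, h⟩
  have h2 := (card_le_card this).trans (card_union_le _ _)
  exact_mod_cast h2

theorem C_union_le (S T : Set ℕ) (N : ℕ) : C (S ∪ T) N ≤ C S N + C T N :=
  C_le_add fun _ h => h

theorem MB_closed (B : Set ℕ) : IsMultClosed (MB B) := by
  rintro a ⟨ha, b, hb, hba⟩ n hn
  exact ⟨Nat.mul_pos ha hn, b, hb, hba.mul_right n⟩

theorem MB_mono {B B' : Set ℕ} (h : B ⊆ B') : MB B ⊆ MB B' := by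
  rintro n ⟨hn, b, hb, hbn⟩
  exact ⟨hn, b, h hb, hbn⟩

theorem Lg_split {W S S' : Set ℕ} (hW : ∀ n, n ∈ W ↔ n ∈ S ∧ n ∉ S') (h : S' ⊆ S) (N : ℕ) :
    Lg W N = Lg S N - Lg S' N := by
  classical
  unfold Lg
  rw [eq_sub_iff_add_eq, ← sum_union]
  · congr 1
    ext n
    simp only [mem_filter, mem_union, hW]
    have := @h n
    tauto
  · rw [disjoint_filter]
    intro n _ h1 h2
    exact ((hW n).mp h1).2 h2

theorem Lg_sdiff {S S' : Set ℕ} (h : S' ⊆ S) (N : ℕ) : Lg (S \ S') N = Lg S N - Lg S' N :=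
  Lg_split (fun _ => Iff.rfl) h N

theorem t_mono {S S' : Set ℕ} (h : S' ⊆ S) (hS : IsMultClosed S) (hS' : IsMultClosed S') :
    t S' ≤ t S := by
  refine le_of_tendsto_of_tendsto' (logDens_of_multClosed hS') (logDens_of_multClosed hS) ?_
  intro N
  refine div_le_div_of_nonneg_right ?_ (Real.log_natCast_nonneg N)
  have h1 := Lg_sdiff h N
  have h2 := Lg_nonneg (S \ S') N
  change Lg S' N ≤ Lg S N
  linarith

/-- the decomposition -/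
theorem decomp (B : Set ℕ) (T N : ℕ) (κ : ℝ) :
    C (MB B) N ≤ C (MB (B ∩ Set.Iic T)) N +
      C {n | n ∉ MB (B ∩ Set.Iic T) ∧ ∃ P : ℕ, P.Prime ∧ (N : ℝ) ^ κ < P ∧ P ∣ n ∧
        n / P ∈ MB B} N +
      C {n | ∀ p : ℕ, p.Prime → p ∣ n → (p : ℝ) ≤ (N : ℝ) ^ κ} N +
      C {n | ∃ b ∈ B, b ∣ n ∧ ∃ P : ℕ, P.Prime ∧ (N : ℝ) ^ κ < P ∧ P ∣ b} N := by
  have h1 : C (MB B) N ≤ C ((MB (B ∩ Set.Iic T) ∪
      {n | n ∉ MB (B ∩ Set.Iic T) ∧ ∃ P : ℕ, P.Prime ∧ (N : ℝ) ^ κ < P ∧ P ∣ n ∧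
        n / P ∈ MB B}) ∪ {n | ∀ p : ℕ, p.Prime → p ∣ n → (p : ℝ) ≤ (N : ℝ) ^ κ} ∪
      {n | ∃ b ∈ B, b ∣ n ∧ ∃ P : ℕ, P.Prime ∧ (N : ℝ) ^ κ < P ∧ P ∣ b}) N := by
    refine C_mono fun n hn _ hS => ?_
    by_cases hT : n ∈ MB (B ∩ Set.Iic T)
    · exact Or.inl (Or.inl (Or.inl hT))
    by_cases hsm : ∀ p : ℕ, p.Prime → p ∣ n → (p : ℝ) ≤ (N : ℝ) ^ κ
    · exact Or.inl (Or.inr hsm)
    push Not at hsm
    obtain ⟨P, hP, hPn, hPN⟩ := hsm
    by_cases ha : n / P ∈ MB B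
    · exact Or.inl (Or.inl (Or.inr ⟨hT, P, hP, hPN, hPn, ha⟩))
    · right
      obtain ⟨_, b, hb, hbn⟩ := hS
      refine ⟨b, hb, hbn, P, hP, hPN, ?_⟩
      by_contra hPb
      apply ha
      obtain ⟨k, rfl⟩ := hPn
      rw [Nat.mul_div_cancel_left k hP.pos]
      have hk : 0 < k := Nat.pos_of_ne_zero (by rintro rfl; simp at hn)
      refine ⟨hk, b, hb, ?_⟩
      exact (Nat.Coprime.dvd_mul_left ((Nat.Prime.coprime_iff_not_dvd hP).mpr hPb).symm).mp hbn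
  refine h1.trans ((C_union_le _ _ N).trans ?_)
  refine add_le_add ((C_union_le _ _ N).trans ?_) le_rfl
  exact add_le_add (C_union_le _ _ N) le_rfl

theorem hCR (hDE : StDE) (hPD : StPD) (hSM : StSM) (hAA : StAA) : StCR := by
  intro B hB
  obtain ⟨K₁, hK₁, hSM⟩ := hSM
  obtain ⟨K₂, hK₂, hAA⟩ := hAA
  rw [Metric.tendsto_nhds]
  intro ε hε
  obtain ⟨κ, hκ0, hκ1, hκK⟩ : ∃ κ : ℝ, 0 < κ ∧ κ < 1 ∧ K₁ * κ ≤ ε / 8 := by
    refine ⟨min (1 / 2) (ε / (8 * K₁)), by positivity, ?_, ?_⟩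
    · exact lt_of_le_of_lt (min_le_left _ _) (by norm_num)
    · calc K₁ * min (1 / 2) (ε / (8 * K₁)) ≤ K₁ * (ε / (8 * K₁)) :=
            mul_le_mul_of_nonneg_left (min_le_right _ _) hK₁.le
        _ = ε / 8 := by field_simp
  obtain ⟨T, hT⟩ := hDE B (ε * κ / (16 * K₂)) (by positivity)
  have hsub : MB (B ∩ Set.Iic T) ⊆ MB B := MB_mono Set.inter_subset_left
  have htm := t_mono hsub (MB_closed B) (MB_closed (B ∩ Set.Iic T))
  have hlog : Tendsto (fun N : ℕ => Lg (MB B \ MB (B ∩ Set.Iic T)) N / Real.log N) atTop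
      (𝓝 (t (MB B) - t (MB (B ∩ Set.Iic T)))) := by
    have h1 := (logDens_of_multClosed (MB_closed B)).sub
      (logDens_of_multClosed (MB_closed (B ∩ Set.Iic T)))
    refine h1.congr fun N => ?_
    rw [Lg_sdiff hsub, sub_div]
  have e1 : ∀ᶠ N : ℕ in atTop, Lg (MB B \ MB (B ∩ Set.Iic T)) N / Real.log N <
      ε * κ / (8 * K₂) := by
    refine hlog.eventually (gt_mem_nhds ?_)
    have h2 : 0 < ε * κ / (16 * K₂) := by positivity
    have h3 : ε * κ / (8 * K₂) = ε * κ / (16 * K₂) + ε * κ / (16 * K₂) := by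
      field_simp
      ring
    linarith
  have e2 : ∀ᶠ N : ℕ in atTop, C (MB (B ∩ Set.Iic T)) N / N < t (MB B) + ε / 8 :=
    (hPD B T).eventually (gt_mem_nhds (by linarith))
  have e3 := hSM κ hκ0 hκ1
  have e4 := hAA (MB B) (MB (B ∩ Set.Iic T)) κ hκ0 hκ1 (MB_closed _)
  have e5 : ∀ᶠ N : ℕ in atTop,
      C {n | ∃ b ∈ B, b ∣ n ∧ ∃ P : ℕ, P.Prime ∧ (N : ℝ) ^ κ < P ∧ P ∣ b} N / N < ε / 8 :=
    (hB κ hκ0 hκ1).eventually (gt_mem_nhds (by positivity))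
  filter_upwards [e1, e2, e3, e4, e5, eventually_gt (MB B) hε, eventually_gt_atTop 0] with N
    f1 f2 f3 f4 f5 f6 hN
  have hN0 : (0 : ℝ) < N := by exact_mod_cast hN
  rw [Real.dist_eq, abs_lt]
  refine ⟨by linarith, ?_⟩
  rw [sub_lt_iff_lt_add, div_lt_iff₀ hN0]
  rw [div_lt_iff₀ hN0] at f2 f5
  have hd := decomp B T N κ
  have f3' : C {n | ∀ p : ℕ, p.Prime → p ∣ n → (p : ℝ) ≤ (N : ℝ) ^ κ} N ≤ ε / 8 * N :=
    f3.trans (mul_le_mul_of_nonneg_right hκK hN0.le)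
  have f4' : K₂ / κ * N * (Lg (MB B \ MB (B ∩ Set.Iic T)) N / Real.log N) ≤ ε / 8 * N := by
    calc K₂ / κ * N * (Lg (MB B \ MB (B ∩ Set.Iic T)) N / Real.log N)
        ≤ K₂ / κ * N * (ε * κ / (8 * K₂)) :=
          mul_le_mul_of_nonneg_left f1.le (by positivity)
      _ = ε / 8 * N := by
          field_simp
  have hεN : 0 < ε * N := by positivity
  nlinarith

end Pool.Agent.Helper84.HD
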