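import Pool.Agent.Helper84.HD.M_NE

/-!
# HD: the sets of multiples for Erdos's question
-/

set_option autoImplicit false

namespace Pool.Agent.Helper84.HD

open Finset Filter Topology
open Pool.Agent.Helper4.DE (C C_nonneg C_le t)

/-- For a prime `q > m` this is the order of the subgroup of `(ℤ/q)ˣ` generated by `2, ..., m`; for a
prime `q ≤ m` it is `0`. -/
noncomputable def od (q m : ℕ) : ℕ := (Finset.Icc 2 m).lcm fun k => orderOf (k : ZMod q)

/-- The sum of the inverses of the orders of the subgroups generated by `2, ..., m` over the primes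
`q ∈ Q` for which the index of this subgroup is larger than `(log q)^c` is finite. -/
def FewLarge (c : ℝ) (Q : Set ℕ) (m : ℕ) : Prop :=
  ∃ K : ℝ, ∀ F : Finset ℕ,
    (∀ q ∈ F, q ∈ Q ∧ m < q ∧ Real.log q ^ c * od q m < q - 1) → ∑ q ∈ F, 1 / (od q m : ℝ) ≤ K

theorem dvd_pow_iff {q k n : ℕ} (hk : 1 ≤ k) : q ∣ k ^ n - 1 ↔ (k : ZMod q) ^ n = 1 := by
  rw [← ZMod.natCast_eq_zero_iff, Nat.cast_sub (Nat.one_le_pow n k hk), Nat.cast_pow, Nat.cast_one,
    sub_eq_zero]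

theorem dvd_gcd_iff_od {q m n : ℕ} :
    q ∣ (Finset.Icc 2 m).gcd (fun k => k ^ n - 1) ↔ od q m ∣ n := by
  unfold od
  rw [Finset.dvd_gcd_iff, Finset.lcm_dvd_iff]
  refine forall_congr' fun k => forall_congr' fun hk => ?_
  rw [mem_Icc] at hk
  rw [dvd_pow_iff (by omega), orderOf_dvd_iff_pow_eq_one]

theorem DQ_eq (Q : Set ℕ) (m : ℕ) : DQ Q m = MB {b | ∃ q ∈ Q, od q m = b} := by
  ext n
  constructor
  · rintro ⟨hn, q, hq, h⟩
    exact ⟨hn, od q m, ⟨q, hq, rfl⟩, dvd_gcd_iff_od.mp h⟩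
  · rintro ⟨hn, _, ⟨q, hq, rfl⟩, h⟩
    exact ⟨hn, q, hq, dvd_gcd_iff_od.mpr h⟩

theorem od_dvd_mono {q m m' : ℕ} (h : m ≤ m') : od q m ∣ od q m' := by
  unfold od
  exact Finset.lcm_mono (Finset.Icc_subset_Icc_right h)

theorem od_zero_of_le {q m : ℕ} (hq : 2 ≤ q) (h : q ≤ m) : od q m = 0 := by
  unfold od
  rw [Finset.lcm_eq_zero_iff]
  refine ⟨q, by simp [hq, h], ?_⟩
  show orderOf ((q : ℕ) : ZMod q) = 0
  rw [ZMod.natCast_self]
  have : Nontrivial (ZMod q) := ZMod.nontrivial_iff.mpr (by omega)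
  rw [orderOf_eq_zero_iff']
  intro n hn
  rw [zero_pow (by omega)]
  exact zero_ne_one

/-- the order divides `q - 1` -/
theorem od_dvd {q m : ℕ} (hq : q.Prime) (h0 : od q m ≠ 0) : od q m ∣ q - 1 := by
  have hqm : m < q := by
    by_contra hcon
    exact h0 (od_zero_of_le hq.two_le (by omega))
  have : Fact q.Prime := ⟨hq⟩
  unfold od
  rw [Finset.lcm_dvd_iff]
  intro k hk
  rw [mem_Icc] at hk
  refine ZMod.orderOf_dvd_card_sub_one ?_
  rw [ne_eq, ZMod.natCast_eq_zero_iff]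
  intro h
  have := Nat.le_of_dvd (by omega) h
  omega

theorem fewLarge_mono {c : ℝ} {Q : Set ℕ} {m m' : ℕ} (h : m ≤ m') (hQ : ∀ q ∈ Q, q.Prime)
    (hF : FewLarge c Q m) : FewLarge c Q m' := by
  obtain ⟨K, hK⟩ := hF
  refine ⟨K, fun F hFm => ?_⟩
  have h1 : ∀ q ∈ F, od q m' ≠ 0 ∧ od q m ≠ 0 ∧ od q m ≤ od q m' := by
    intro q hq
    obtain ⟨h1, h2, -⟩ := hFm q hq
    have hm' : od q m' ≠ 0 := by
      have : Fact q.Prime := ⟨hQ q h1⟩
      unfold od
      rw [ne_eq, Finset.lcm_eq_zero_iff]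
      rintro ⟨k, hk, hk0⟩
      rw [mem_Icc] at hk
      have hkq : ((k : ℕ) : ZMod q) ≠ 0 := by
        rw [ne_eq, ZMod.natCast_eq_zero_iff]
        intro hd
        have := Nat.le_of_dvd (by omega) hd
        omega
      have := ZMod.orderOf_dvd_card_sub_one hkq
      rw [hk0] at this
      have h3 := Nat.eq_zero_of_zero_dvd this
      have := (hQ q h1).two_le
      omega
    have hd := od_dvd_mono (q := q) h
    have hm : od q m ≠ 0 := by
      intro h0
      rw [h0] at hd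
      exact hm' (Nat.eq_zero_of_zero_dvd hd)
    exact ⟨hm', hm, Nat.le_of_dvd (Nat.pos_of_ne_zero hm') hd⟩
  have h2 := hK F (fun q hq => by
    obtain ⟨h3, h4, h5⟩ := hFm q hq
    refine ⟨h3, by omega, lt_of_le_of_lt ?_ h5⟩
    refine mul_le_mul_of_nonneg_left ?_ (Real.rpow_nonneg (Real.log_natCast_nonneg q) c)
    exact_mod_cast (h1 q hq).2.2)
  refine le_trans (sum_le_sum fun q hq => ?_) h2
  obtain ⟨h3, h4, h5⟩ := h1 q hq
  refine one_div_le_one_div_of_le ?_ (by exact_mod_cast h5)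
  exact_mod_cast Nat.pos_of_ne_zero h4

/-- the exceptional primes contribute little -/
theorem exc_small {c : ℝ} {Q : Set ℕ} {m : ℕ} (hm : 2 ≤ m) (hQ : ∀ q ∈ Q, q.Prime)
    (hF : FewLarge c Q m) {κ : ℝ} (hκ : 0 < κ) : Tendsto (fun N : ℕ =>
      C {n | ∃ q ∈ Q, Real.log q ^ c * od q m < q - 1 ∧ (N : ℝ) ^ κ < od q m ∧ od q m ∣ n} N / N)
      atTop (𝓝 0) := by
  classical
  obtain ⟨K, hK⟩ := hF
  obtain ⟨f, hf⟩ : ∃ f : ℕ → ℝ, f = fun q =>
      if q ∈ Q ∧ m < q ∧ Real.log q ^ c * od q m < q - 1 then 1 / (od q m : ℝ) else 0 := ⟨_, rfl⟩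
  have hf0 : ∀ q, 0 ≤ f q := by
    intro q
    rw [hf]
    dsimp only
    split_ifs
    · positivity
    · exact le_rfl
  have hsum : Summable f := by
    refine summable_of_sum_le hf0 (c := K) fun F => ?_
    have h1 := hK (F.filter fun q => q ∈ Q ∧ m < q ∧ Real.log q ^ c * od q m < q - 1)
      (fun q hq => (mem_filter.mp hq).2)
    rw [sum_filter] at h1
    rw [hf]
    exact h1
  rw [Metric.tendsto_nhds]
  intro ε hε
  obtain ⟨s, hs⟩ := summable_iff_vanishing_norm.mp hsum ε hε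
  have hev : ∀ᶠ N : ℕ in atTop, ∀ q ∈ s, (od q m : ℝ) ≤ (N : ℝ) ^ κ := by
    rw [Filter.eventually_all_finset]
    intro q _
    exact ((tendsto_rpow_atTop hκ).comp tendsto_natCast_atTop_atTop).eventually_ge_atTop _
  filter_upwards [hev, eventually_gt_atTop 0] with N hN hN0
  have hN0' : (0 : ℝ) < N := by exact_mod_cast hN0
  rw [Real.dist_eq, sub_zero, abs_of_nonneg (div_nonneg (C_nonneg _ N) hN0'.le), div_lt_iff₀ hN0']
  obtain ⟨T, hT⟩ : ∃ T : Finset ℕ, T = (range (2 ^ N)).filter (fun q => q ∈ Q ∧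
      Real.log q ^ c * od q m < q - 1 ∧ (N : ℝ) ^ κ < od q m) := ⟨_, rfl⟩
  have hTm : ∀ q ∈ T, q ∈ Q ∧ Real.log q ^ c * od q m < q - 1 ∧ (N : ℝ) ^ κ < od q m := by
    intro q hq
    rw [hT, mem_filter] at hq
    exact hq.2
  have hdisj : Disjoint T s := by
    rw [Finset.disjoint_left]
    intro q hq hqs
    have h1 := hN q hqs
    have h2 := (hTm q hq).2.2
    linarith
  have hsm := hs T hdisj
  have hod : ∀ q ∈ T, od q m ≠ 0 := by
    intro q hq h0
    have h2 := (hTm q hq).2.2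
    rw [h0, Nat.cast_zero] at h2
    have : 0 ≤ (N : ℝ) ^ κ := by positivity
    linarith
  have hfT : ∀ q ∈ T, f q = 1 / (od q m : ℝ) := by
    intro q hq
    rw [hf]
    have h1 := hTm q hq
    have hmq : m < q := by
      by_contra hcon
      exact hod q hq (od_zero_of_le (hQ q h1.1).two_le (by omega))
    exact if_pos ⟨h1.1, hmq, h1.2.1⟩
  have hcount : C {n | ∃ q ∈ Q, Real.log q ^ c * od q m < q - 1 ∧ (N : ℝ) ^ κ < od q m ∧
      od q m ∣ n} N ≤ ∑ q ∈ T, (N : ℝ) * f q := by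
    have h1 : (Ioc 0 N).filter (fun n => ∃ q ∈ Q, Real.log q ^ c * od q m < q - 1 ∧
        (N : ℝ) ^ κ < od q m ∧ od q m ∣ n) ⊆
        T.biUnion fun q => (Ioc 0 N).filter (fun n => od q m ∣ n) := by
      intro n hn
      rw [mem_filter, mem_Ioc] at hn
      obtain ⟨⟨hn0, hnN⟩, q, hq, h2, h3, h4⟩ := hn
      rw [mem_biUnion]
      refine ⟨q, ?_, mem_filter.mpr ⟨mem_Ioc.mpr ⟨hn0, hnN⟩, h4⟩⟩
      rw [hT, mem_filter, mem_range]
      refine ⟨?_, hq, h2, h3⟩
      have h5 : q ∣ 2 ^ n - 1 := by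
        have h6 := dvd_gcd_iff_od.mpr h4
        exact h6.trans (Finset.gcd_dvd (by simp [hm] : (2 : ℕ) ∈ Finset.Icc 2 m))
      have h7 : 1 < 2 ^ n := Nat.one_lt_two_pow (by omega)
      have h8 := Nat.le_of_dvd (by omega) h5
      have h9 : 2 ^ n ≤ 2 ^ N := Nat.pow_le_pow_right (by norm_num) hnN
      omega
    have h2 : ((Ioc 0 N).filter (fun n => ∃ q ∈ Q, Real.log q ^ c * od q m < q - 1 ∧
        (N : ℝ) ^ κ < od q m ∧ od q m ∣ n)).card ≤ ∑ q ∈ T, N / od q m := by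
      refine (card_le_card h1).trans (card_biUnion_le.trans (le_of_eq ?_))
      exact sum_congr rfl fun q _ => Nat.Ioc_filter_dvd_card_eq_div N (od q m)
    have h3 : ((∑ q ∈ T, N / od q m : ℕ) : ℝ) ≤ ∑ q ∈ T, (N : ℝ) * f q := by
      rw [Nat.cast_sum]
      refine sum_le_sum fun q hq => ?_
      rw [hfT q hq, mul_one_div]
      exact Nat.cast_div_le
    refine le_trans ?_ ((Nat.cast_le (α := ℝ).mpr h2).trans h3)
    unfold C
    refine le_of_eq ?_
    congr 2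
  rw [Real.norm_eq_abs, abs_of_nonneg (sum_nonneg fun q _ => hf0 q)] at hsm
  calc C {n | ∃ q ∈ Q, Real.log q ^ c * od q m < q - 1 ∧ (N : ℝ) ^ κ < od q m ∧
      od q m ∣ n} N ≤ ∑ q ∈ T, (N : ℝ) * f q := hcount
    _ = N * ∑ q ∈ T, f q := by rw [mul_sum]
    _ < N * ε := mul_lt_mul_of_pos_left hsm hN0'
    _ = ε * N := mul_comm _ _

/-- `log x √x < x - 1` for large `x` -/
theorem log_sqrt : ∃ X : ℝ, 3 ≤ X ∧ ∀ x : ℝ, X ≤ x → Real.log x * √x < x - 1 := by
  have h1 := (isLittleO_log_rpow_atTop (by norm_num : (0 : ℝ) < 1 / 2)).bound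
    (by norm_num : (0 : ℝ) < 1 / 2)
  obtain ⟨X, hX⟩ := eventually_atTop.mp h1
  refine ⟨max X 3, le_max_right _ _, fun x hx => ?_⟩
  have hx3 : 3 ≤ x := (le_max_right _ _).trans hx
  have h2 := hX x ((le_max_left _ _).trans hx)
  rw [Real.norm_eq_abs, Real.norm_eq_abs, abs_of_nonneg (Real.log_nonneg (by linarith)),
    abs_of_nonneg (by positivity), ← Real.sqrt_eq_rpow] at h2
  have h3 : Real.log x * √x ≤ 1 / 2 * √x * √x := mul_le_mul_of_nonneg_right h2 (Real.sqrt_nonneg _)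
  have h4 : √x * √x = x := Real.mul_self_sqrt (by linarith)
  nlinarith

/-- the set of the multiples with a large prime factor of the orders is thin -/
theorem thin (hNE : StNE) {c : ℝ} (hc0 : 0 < c) (hc : c < 1 - Real.log 2) {Q : Set ℕ} {m : ℕ}
    (hm : 2 ≤ m) (hQ : ∀ q ∈ Q, q.Prime) (hF : FewLarge c Q m) {κ : ℝ} (hκ : 0 < κ) (hκ1 : κ < 1) :
    Tendsto (fun N : ℕ => C {n | ∃ b ∈ {b | ∃ q ∈ Q, od q m = b}, b ∣ n ∧
      ∃ P : ℕ, P.Prime ∧ (N : ℝ) ^ κ < P ∧ P ∣ b} N / N) atTop (𝓝 0) := by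
  have h1 := (hNE c κ hc0 hc hκ hκ1).add (exc_small hm hQ hF hκ)
  rw [add_zero] at h1
  obtain ⟨X, hX3, hX⟩ := log_sqrt
  have hlog2 : 0 < Real.log 2 := Real.log_pos (by norm_num)
  have hN2 : ∀ᶠ N : ℕ in atTop, X ≤ (N : ℝ) := tendsto_natCast_atTop_atTop.eventually_ge_atTop X
  refine squeeze_zero' (Eventually.of_forall fun N => div_nonneg (C_nonneg _ N) (by positivity))
    ?_ h1
  filter_upwards [hN2, eventually_gt_atTop 0] with N hXN hN0
  have hN0' : (0 : ℝ) < N := by exact_mod_cast hN0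
  rw [← add_div]
  refine div_le_div_of_nonneg_right ?_ hN0'.le
  refine le_trans (C_mono (T := {n | n ≤ N ∧ 0 < n ∧ ∃ b ∈ {b | ∃ q ∈ Q, od q m = b}, b ∣ n ∧
      ∃ P : ℕ, P.Prime ∧ (N : ℝ) ^ κ < P ∧ P ∣ b}) fun n h0 hN h => ⟨hN, h0, h⟩) ?_
  refine C_le_add fun n hn => ?_
  obtain ⟨hnN, hn0, b, ⟨q, hq, rfl⟩, hbn, P, hP, hPN, hPb⟩ := hn
  have hb0 : od q m ≠ 0 := by
    intro h0
    rw [h0] at hbn
    exact hn0.ne' (Nat.eq_zero_of_zero_dvd hbn)
  have hbP : (N : ℝ) ^ κ < od q m := by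
    refine hPN.trans_le ?_
    exact_mod_cast Nat.le_of_dvd (Nat.pos_of_ne_zero hb0) hPb
  by_cases hexc : Real.log q ^ c * od q m < q - 1
  · exact Or.inr ⟨q, hq, hexc, hbP, hbn⟩
  · left
    have hqp := hQ q hq
    have hq2 := hqp.two_le
    obtain ⟨i, hi⟩ := od_dvd hqp hb0
    have hi0 : 1 ≤ i := by
      rcases Nat.eq_zero_or_pos i with h | h
      · rw [h, mul_zero] at hi
        omega
      · exact h
    have hiq : i * od q m + 1 = q := by
      rw [mul_comm, ← hi]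
      omega
    have hb0' : (0 : ℝ) < od q m := by exact_mod_cast Nat.pos_of_ne_zero hb0
    have hqr : (q : ℝ) - 1 = i * od q m := by
      have : ((i * od q m + 1 : ℕ) : ℝ) = q := by exact_mod_cast hiq
      push_cast at this
      linarith
    have hi1 : (i : ℝ) ≤ Real.log q ^ c := by
      have h2 := not_lt.mp hexc
      rw [hqr] at h2
      exact le_of_mul_le_mul_right h2 hb0'
    have hbN : (od q m : ℝ) ≤ N := by
      exact_mod_cast (Nat.le_of_dvd hn0 hbn).trans hnN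
    have hqN : (q : ℝ) ≤ (N : ℝ) ^ 2 := by
      by_contra hcon
      push Not at hcon
      have hN1 : (1 : ℝ) ≤ N := by linarith
      have hXq : X ≤ (q : ℝ) := by nlinarith
      have h3 := hX q hXq
      have hlq : 1 ≤ Real.log q := by
        rw [Real.le_log_iff_exp_le (by linarith)]
        have := Real.exp_one_lt_d9
        linarith
      have h4 : Real.log q ^ c ≤ Real.log q := by
        calc Real.log q ^ c ≤ Real.log q ^ (1 : ℝ) :=
              Real.rpow_le_rpow_of_exponent_le hlq (by linarith)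
          _ = _ := Real.rpow_one _
      have h5 : (N : ℝ) ≤ √q := Real.le_sqrt_of_sq_le hcon.le
      have h6 : (q : ℝ) - 1 ≤ Real.log q * √q := by
        rw [hqr]
        exact mul_le_mul (hi1.trans h4) (hbN.trans h5) hb0'.le (by linarith)
      linarith
    refine ⟨i, od q m, hi0, ?_, hbP.le, hbn, by rw [hiq]; exact hqp⟩
    have hq1 : (1 : ℝ) ≤ q := by exact_mod_cast (by omega : 1 ≤ q)
    have hlog : Real.log q ≤ 2 * Real.log N := by
      have h7 := Real.log_le_log (by linarith) hqN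
      rw [Real.log_pow] at h7
      exact_mod_cast h7
    exact hi1.trans (Real.rpow_le_rpow (Real.log_nonneg hq1) hlog hc0.le)

/-- natural density of the integers `n` for which a prime of `Q` divides `2^n-1, ..., m^n-1` -/
theorem dens_DQ (hCR : StCR) (hNE : StNE) {c : ℝ} (hc0 : 0 < c) (hc : c < 1 - Real.log 2)
    {Q : Set ℕ} {m : ℕ} (hm : 2 ≤ m) (hQ : ∀ q ∈ Q, q.Prime) (hF : FewLarge c Q m) :
    ∃ d : ℝ, Tendsto (fun N : ℕ => C (DQ Q m) N / N) atTop (𝓝 d) := by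
  refine ⟨t (DQ Q m), ?_⟩
  rw [DQ_eq]
  exact hCR _ fun κ h0 h1 => thin hNE hc0 hc hm hQ hF h0 h1

end Pool.Agent.Helper84.HD
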