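import Pool.Agent.Helper84.HD.M_SP
import Pool.Agent.Helper84.HD.M_CR
import Pool.Agent.Helper15.AB.M_DP

/-!
# HD MODULE NE: integers with a large divisor `L` such that `i L + 1` is prime, `i` small
-/

set_option autoImplicit false

namespace Pool.Agent.Helper84.HD

open Finset Filter Topology
open ArithmeticFunction (cardFactors)
open Pool.Agent.Helper4.DE (C C_nonneg C_le)

theorem lim_aux {r : ℝ} (hr : 0 < r) :
    Tendsto (fun N : ℕ => (2 + Real.log (Real.log N)) * (Real.log N) ^ (-r)) atTop (𝓝 0) := by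
  have h1 : Tendsto (fun x : ℝ => (2 + Real.log x) * x ^ (-r)) atTop (𝓝 0) := by
    have h2 := (tendsto_rpow_neg_atTop hr).const_mul 2
    have h3 := (isLittleO_log_rpow_atTop hr).tendsto_div_nhds_zero
    have h4 := h2.add h3
    rw [mul_zero, add_zero] at h4
    refine h4.congr' ?_
    filter_upwards [eventually_gt_atTop 0] with x hx
    rw [Real.rpow_neg hx.le]
    ring
  exact h1.comp (Real.tendsto_log_atTop.comp tendsto_natCast_atTop_atTop)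

theorem stepA (z y U : ℝ) (N : ℕ) (W : Set ℕ) (hW : ∀ n ∈ W, 0 < n → n ≤ N → ∃ i L : ℕ, 1 ≤ i ∧
    (i : ℝ) ≤ z ∧ y ≤ L ∧ L ∣ n ∧ (i * L + 1).Prime ∧ (cardFactors n : ℝ) ≤ U) :
    C W N ≤ ∑ i ∈ Ioc 0 ⌊z⌋₊, ∑ k ∈ Ioc 0 N,
      (((Ioc 0 (N / k)).filter (fun L : ℕ => y ≤ L ∧ (i * L + 1).Prime ∧
        (cardFactors (k * L) : ℝ) ≤ U)).card : ℝ) := by
  classical
  unfold C
  have h1 : (Ioc 0 N).filter (· ∈ W) ⊆ (Ioc 0 ⌊z⌋₊).biUnion fun i => (Ioc 0 N).biUnion fun k =>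
      ((Ioc 0 (N / k)).filter (fun L : ℕ => y ≤ L ∧ (i * L + 1).Prime ∧
        (cardFactors (k * L) : ℝ) ≤ U)).image (fun L => k * L) := by
    intro n hn
    rw [mem_filter, mem_Ioc] at hn
    obtain ⟨⟨hn0, hnN⟩, hnW⟩ := hn
    obtain ⟨i, L, hi, hiz, hyL, hLn, hp, hO⟩ := hW n hnW hn0 hnN
    obtain ⟨k, rfl⟩ := hLn
    have hL0 : 0 < L := Nat.pos_of_ne_zero (by rintro rfl; simp at hn0)
    have hk0 : 0 < k := Nat.pos_of_ne_zero (by rintro rfl; simp at hn0)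
    rw [mem_biUnion]
    refine ⟨i, mem_Ioc.mpr ⟨hi, Nat.le_floor hiz⟩, ?_⟩
    rw [mem_biUnion]
    refine ⟨k, mem_Ioc.mpr ⟨hk0, (Nat.le_mul_of_pos_left k hL0).trans hnN⟩, ?_⟩
    rw [mem_image]
    refine ⟨L, ?_, mul_comm _ _⟩
    rw [mem_filter, mem_Ioc]
    refine ⟨⟨hL0, (Nat.le_div_iff_mul_le hk0).mpr hnN⟩, hyL, hp, ?_⟩
    rw [mul_comm]
    exact hO
  have h2 : ((Ioc 0 N).filter (· ∈ W)).card ≤ ∑ i ∈ Ioc 0 ⌊z⌋₊, ∑ k ∈ Ioc 0 N,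
      ((Ioc 0 (N / k)).filter (fun L : ℕ => y ≤ L ∧ (i * L + 1).Prime ∧
        (cardFactors (k * L) : ℝ) ≤ U)).card := by
    refine (card_le_card h1).trans (card_biUnion_le.trans (sum_le_sum fun i _ => ?_))
    exact card_biUnion_le.trans (sum_le_sum fun k _ => card_image_le)
  exact_mod_cast h2

theorem hf_mul {k L : ℕ} (hk : k ≠ 0) (hL : L ≠ 0) :
    hf k * hf L = (1 / 2 : ℝ) ^ cardFactors (k * L) := by
  unfold hf
  rw [ArithmeticFunction.cardFactors_mul hk hL, pow_add]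

theorem one_le_w {k L : ℕ} {U : ℝ} (hk : k ≠ 0) (hL : L ≠ 0)
    (hU : (cardFactors (k * L) : ℝ) ≤ U) : 1 ≤ (2 : ℝ) ^ U * hf k * hf L := by
  rw [mul_assoc, hf_mul hk hL]
  have h1 : (1 / 2 : ℝ) ^ cardFactors (k * L) = (2 : ℝ) ^ (-(cardFactors (k * L) : ℝ)) := by
    rw [Real.rpow_neg (by norm_num), Real.rpow_natCast, one_div, inv_pow]
  rw [h1, ← Real.rpow_add (by norm_num)]
  exact Real.one_le_rpow (by norm_num) (by linarith)

theorem stepB {K : ℝ} (hK : 0 < K) (hSP : ∀ i H : ℕ, 1 ≤ i → 2 ≤ H →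
    ∑ L ∈ (Ioc 0 H).filter (fun L => (i * L + 1).Prime), hf L ≤
      K * ((i : ℝ) / Nat.totient i) * (H / (Real.log H * √(Real.log H))))
    {i k N : ℕ} {κ U : ℝ} (hi : 1 ≤ i) (hk : 1 ≤ k) (hN : 2 ≤ N) (hκ : 0 < κ)
    (hy : 2 ≤ (N : ℝ) ^ κ) :
    (((Ioc 0 (N / k)).filter (fun L : ℕ => (N : ℝ) ^ κ ≤ L ∧ (i * L + 1).Prime ∧
        (cardFactors (k * L) : ℝ) ≤ U)).card : ℝ) ≤
      (2 : ℝ) ^ U * hf k * (K * ((i : ℝ) / Nat.totient i) *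
        ((N / k : ℝ) / (κ * Real.log N * √(κ * Real.log N)))) := by
  classical
  have hN0 : (0 : ℝ) < N := by exact_mod_cast (by omega : 0 < N)
  have hk0 : (0 : ℝ) < k := by exact_mod_cast hk
  have hl : 0 < Real.log N := Real.log_pos (by exact_mod_cast (by omega : 1 < N))
  have hr := one_le_ratio_SP i hi
  have hfk := hf_nonneg k
  have h2U : 0 < (2 : ℝ) ^ U := by positivity
  have hr0 : 0 ≤ (i : ℝ) / Nat.totient i := by linarith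
  rcases ((Ioc 0 (N / k)).filter (fun L : ℕ => (N : ℝ) ^ κ ≤ L ∧ (i * L + 1).Prime ∧
        (cardFactors (k * L) : ℝ) ≤ U)).eq_empty_or_nonempty with he | ⟨L₀, hL₀⟩
  · rw [he, card_empty, Nat.cast_zero]
    positivity
  · rw [mem_filter, mem_Ioc] at hL₀
    have hHy : (N : ℝ) ^ κ ≤ ((N / k : ℕ) : ℝ) :=
      hL₀.2.1.trans (by exact_mod_cast hL₀.1.2)
    have hH2 : 2 ≤ N / k := by exact_mod_cast hy.trans hHy
    have hlH : κ * Real.log N ≤ Real.log ((N / k : ℕ) : ℝ) := by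
      rw [← Real.log_rpow hN0]
      exact Real.log_le_log (by positivity) hHy
    have hκl : 0 < κ * Real.log N := by positivity
    have hq : ((N / k : ℕ) : ℝ) / (Real.log ((N / k : ℕ) : ℝ) * √(Real.log ((N / k : ℕ) : ℝ))) ≤
        (N / k : ℝ) / (κ * Real.log N * √(κ * Real.log N)) := by
      refine div_le_div₀ (by positivity) Nat.cast_div_le (by positivity) ?_
      exact mul_le_mul hlH (Real.sqrt_le_sqrt hlH) (Real.sqrt_nonneg _) (by linarith)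
    calc (((Ioc 0 (N / k)).filter (fun L : ℕ => (N : ℝ) ^ κ ≤ L ∧ (i * L + 1).Prime ∧
          (cardFactors (k * L) : ℝ) ≤ U)).card : ℝ)
        = ∑ L ∈ (Ioc 0 (N / k)).filter (fun L : ℕ => (N : ℝ) ^ κ ≤ L ∧ (i * L + 1).Prime ∧
          (cardFactors (k * L) : ℝ) ≤ U), (1 : ℝ) := by simp
      _ ≤ ∑ L ∈ (Ioc 0 (N / k)).filter (fun L : ℕ => (N : ℝ) ^ κ ≤ L ∧ (i * L + 1).Prime ∧
          (cardFactors (k * L) : ℝ) ≤ U), (2 : ℝ) ^ U * hf k * hf L := by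
          refine sum_le_sum fun L hL => ?_
          rw [mem_filter, mem_Ioc] at hL
          exact one_le_w (by omega) (by omega) hL.2.2.2
      _ ≤ ∑ L ∈ (Ioc 0 (N / k)).filter (fun L => (i * L + 1).Prime),
          (2 : ℝ) ^ U * hf k * hf L := by
          refine sum_le_sum_of_subset_of_nonneg ?_ (fun L _ _ => ?_)
          · intro L hL
            rw [mem_filter] at *
            exact ⟨hL.1, hL.2.2.1⟩
          · exact mul_nonneg (mul_nonneg h2U.le hfk) (hf_nonneg L)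
      _ = (2 : ℝ) ^ U * hf k * ∑ L ∈ (Ioc 0 (N / k)).filter (fun L => (i * L + 1).Prime),
          hf L := by rw [mul_sum]
      _ ≤ (2 : ℝ) ^ U * hf k * (K * ((i : ℝ) / Nat.totient i) *
          (((N / k : ℕ) : ℝ) / (Real.log ((N / k : ℕ) : ℝ) *
            √(Real.log ((N / k : ℕ) : ℝ))))) :=
          mul_le_mul_of_nonneg_left (hSP i (N / k) hi hH2) (mul_nonneg h2U.le hfk)
      _ ≤ _ := by
          refine mul_le_mul_of_nonneg_left ?_ (mul_nonneg h2U.le hfk)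
          exact mul_le_mul_of_nonneg_left hq (mul_nonneg hK.le hr0)

theorem stepD {D : ℝ} (hD : 0 < D)
    (hDP : ∀ n : ℕ, 1 ≤ n → (n : ℝ) / Nat.totient n ≤ D * (1 + Real.log (1 + Real.log n)))
    {c ℓ : ℝ} (hc1 : c ≤ 1) (hℓ : 1 ≤ ℓ) :
    ∑ i ∈ Ioc 0 ⌊(2 * ℓ) ^ c⌋₊, (i : ℝ) / Nat.totient i ≤
      (2 * ℓ) ^ c * (D * (2 + Real.log ℓ)) := by
  have hz0 : 0 < (2 * ℓ) ^ c := by positivity
  have hlogℓ : 0 ≤ Real.log ℓ := Real.log_nonneg hℓ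
  have h1 : ∀ i ∈ Ioc 0 ⌊(2 * ℓ) ^ c⌋₊, (i : ℝ) / Nat.totient i ≤ D * (2 + Real.log ℓ) := by
    intro i hi
    rw [mem_Ioc] at hi
    have hi1 : (1 : ℝ) ≤ i := by exact_mod_cast hi.1
    have hiz : (i : ℝ) ≤ (2 * ℓ) ^ c := (Nat.le_floor_iff hz0.le).mp hi.2
    have hz2 : (2 * ℓ) ^ c ≤ 2 * ℓ := by
      calc (2 * ℓ) ^ c ≤ (2 * ℓ) ^ (1 : ℝ) := Real.rpow_le_rpow_of_exponent_le (by linarith) hc1
        _ = _ := Real.rpow_one _
    have hli : Real.log i ≤ 1 + Real.log ℓ := by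
      have h3 : Real.log i ≤ Real.log (2 * ℓ) := Real.log_le_log (by linarith) (hiz.trans hz2)
      rw [Real.log_mul (by norm_num) (by linarith)] at h3
      have h4 : Real.log 2 < 1 := by
        have := Real.log_two_lt_d9
        linarith
      linarith
    have hli0 : 0 ≤ Real.log i := Real.log_nonneg hi1
    refine (hDP i hi.1).trans (mul_le_mul_of_nonneg_left ?_ hD.le)
    have h5 := Real.log_le_sub_one_of_pos (by linarith : 0 < 1 + Real.log i)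
    linarith
  calc ∑ i ∈ Ioc 0 ⌊(2 * ℓ) ^ c⌋₊, (i : ℝ) / Nat.totient i
      ≤ ∑ i ∈ Ioc 0 ⌊(2 * ℓ) ^ c⌋₊, D * (2 + Real.log ℓ) := sum_le_sum h1
    _ = (⌊(2 * ℓ) ^ c⌋₊ : ℝ) * (D * (2 + Real.log ℓ)) := by
        rw [sum_const, Nat.card_Ioc, Nat.sub_zero, nsmul_eq_mul]
    _ ≤ _ := mul_le_mul_of_nonneg_right (Nat.floor_le hz0.le) (by positivity)

theorem hNE (hKS : StKS) (hTU : StTU) : StNE := by
  intro c κ hc0 hc hκ0 hκ1
  obtain ⟨K, hK, hSP⟩ := hSP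
  obtain ⟨K', hK', hKS⟩ := hKS
  obtain ⟨D, hD, hDP⟩ := Pool.Agent.Helper15.AB.hDP Pool.Agent.Helper15.AB.hMT
  have hlog2 : Real.log 2 < 1 := by
    have := Real.log_two_lt_d9
    linarith
  have hlog2' : 0 < Real.log 2 := Real.log_pos (by norm_num)
  obtain ⟨ρ, hρ⟩ : ∃ ρ : ℝ, ρ = 1 - Real.log 2 - c := ⟨_, rfl⟩
  have hρ0 : 0 < ρ := by rw [hρ]; linarith
  have hη := hTU (ρ / 2) (by linarith)
  have hlim := (lim_aux (r := ρ / 2) (by linarith)).const_mul (2 * K * K' * D / (κ * √κ))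
  rw [mul_zero] at hlim
  have hsum := hη.add hlim
  rw [add_zero] at hsum
  have hloglog : ∀ᶠ N : ℕ in atTop, 1 ≤ Real.log N :=
    (Real.tendsto_log_atTop.comp tendsto_natCast_atTop_atTop).eventually_ge_atTop 1
  have hpow : ∀ᶠ N : ℕ in atTop, 2 ≤ (N : ℝ) ^ κ :=
    ((tendsto_rpow_atTop hκ0).comp tendsto_natCast_atTop_atTop).eventually_ge_atTop 2
  refine squeeze_zero' (Eventually.of_forall fun N => div_nonneg (C_nonneg _ N) (by positivity))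
    ?_ hsum
  filter_upwards [hloglog, hpow, eventually_ge_atTop 2] with N hℓ hy hN
  have hN0 : (0 : ℝ) < N := by exact_mod_cast (by omega : 0 < N)
  obtain ⟨ℓ, hℓdef⟩ : ∃ ℓ : ℝ, ℓ = Real.log N := ⟨_, rfl⟩
  rw [← hℓdef] at hℓ ⊢
  have hℓ0 : 0 < ℓ := by linarith
  have hlogℓ : 0 ≤ Real.log ℓ := Real.log_nonneg hℓ
  have hsκ : 0 < √κ := Real.sqrt_pos.mpr hκ0
  have hsℓ : 0 < √ℓ := Real.sqrt_pos.mpr hℓ0
  obtain ⟨U, hU⟩ : ∃ U : ℝ, U = (1 + ρ / 2) * Real.log ℓ := ⟨_, rfl⟩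
  -- split off the integers with many prime factors
  have hsplit : C {n | ∃ i L : ℕ, 1 ≤ i ∧ (i : ℝ) ≤ (2 * ℓ) ^ c ∧ (N : ℝ) ^ κ ≤ L ∧ L ∣ n ∧
      (i * L + 1).Prime} N ≤
      C {n | (1 + ρ / 2) * Real.log ℓ < cardFactors n} N +
      C {n | (∃ i L : ℕ, 1 ≤ i ∧ (i : ℝ) ≤ (2 * ℓ) ^ c ∧ (N : ℝ) ^ κ ≤ L ∧ L ∣ n ∧
      (i * L + 1).Prime) ∧ (cardFactors n : ℝ) ≤ U} N := by
    refine C_le_add fun n hn => ?_
    by_cases h : (1 + ρ / 2) * Real.log ℓ < cardFactors n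
    · exact Or.inl h
    · right
      refine ⟨hn, ?_⟩
      rw [hU]
      exact not_lt.mp h
  have hA := stepA ((2 * ℓ) ^ c) ((N : ℝ) ^ κ) U N {n | (∃ i L : ℕ, 1 ≤ i ∧
      (i : ℝ) ≤ (2 * ℓ) ^ c ∧ (N : ℝ) ^ κ ≤ L ∧ L ∣ n ∧ (i * L + 1).Prime) ∧
      (cardFactors n : ℝ) ≤ U} (by
    rintro n ⟨⟨i, L, h1, h2, h3, h4, h5⟩, h6⟩ _ _
    exact ⟨i, L, h1, h2, h3, h4, h5, h6⟩)
  have hB : ∑ i ∈ Ioc 0 ⌊(2 * ℓ) ^ c⌋₊, ∑ k ∈ Ioc 0 N,
      (((Ioc 0 (N / k)).filter (fun L : ℕ => (N : ℝ) ^ κ ≤ L ∧ (i * L + 1).Prime ∧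
        (cardFactors (k * L) : ℝ) ≤ U)).card : ℝ) ≤
      ∑ i ∈ Ioc 0 ⌊(2 * ℓ) ^ c⌋₊, ∑ k ∈ Ioc 0 N,
        (2 : ℝ) ^ U * hf k * (K * ((i : ℝ) / Nat.totient i) *
        ((N / k : ℝ) / (κ * ℓ * √(κ * ℓ)))) := by
    refine sum_le_sum fun i hi => sum_le_sum fun k hk => ?_
    rw [mem_Ioc] at hi hk
    rw [hℓdef]
    exact stepB hK hSP hi.1 hk.1 hN hκ0 hy
  have hE : ∑ i ∈ Ioc 0 ⌊(2 * ℓ) ^ c⌋₊, ∑ k ∈ Ioc 0 N,
        (2 : ℝ) ^ U * hf k * (K * ((i : ℝ) / Nat.totient i) *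
        ((N / k : ℝ) / (κ * ℓ * √(κ * ℓ)))) =
      (2 : ℝ) ^ U * K * (N / (κ * ℓ * √(κ * ℓ))) *
        (∑ i ∈ Ioc 0 ⌊(2 * ℓ) ^ c⌋₊, (i : ℝ) / Nat.totient i) * ∑ k ∈ Ioc 0 N, hf k / k := by
    rw [mul_assoc ((2 : ℝ) ^ U * K * (N / (κ * ℓ * √(κ * ℓ)))), sum_mul_sum, mul_sum]
    refine sum_congr rfl fun i _ => ?_
    rw [mul_sum]
    refine sum_congr rfl fun k _ => ?_
    ring
  have hKS' := hKS N hN
  rw [← hℓdef] at hKS'
  have hDs := stepD hD hDP (c := c) (ℓ := ℓ) (by linarith) hℓ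
  have hks0 : 0 ≤ ∑ k ∈ Ioc 0 N, hf k / k :=
    sum_nonneg fun k _ => div_nonneg (hf_nonneg k) (by positivity)
  have hpre : 0 ≤ (2 : ℝ) ^ U * K * (N / (κ * ℓ * √(κ * ℓ))) := by positivity
  -- the exponents
  have hz : (2 * ℓ) ^ c ≤ 2 * ℓ ^ c := by
    rw [Real.mul_rpow (by norm_num) hℓ0.le]
    refine mul_le_mul_of_nonneg_right ?_ (by positivity)
    calc (2 : ℝ) ^ c ≤ (2 : ℝ) ^ (1 : ℝ) :=
          Real.rpow_le_rpow_of_exponent_le (by norm_num) (by linarith)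
      _ = 2 := Real.rpow_one _
  have h2U : (2 : ℝ) ^ U = ℓ ^ ((1 + ρ / 2) * Real.log 2) := by
    rw [Real.rpow_def_of_pos (by norm_num), Real.rpow_def_of_pos hℓ0, hU]
    congr 1
    ring
  have hexp : ℓ ^ ((1 + ρ / 2) * Real.log 2) * ℓ ^ c ≤ ℓ * ℓ ^ (-(ρ / 2)) := by
    rw [← Real.rpow_add hℓ0]
    have e : ℓ * ℓ ^ (-(ρ / 2)) = ℓ ^ (1 + -(ρ / 2)) := by
      rw [Real.rpow_add hℓ0, Real.rpow_one]
    rw [e]
    refine Real.rpow_le_rpow_of_exponent_le hℓ ?_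
    have h3 : ρ / 2 * Real.log 2 ≤ ρ / 2 * 1 := mul_le_mul_of_nonneg_left hlog2.le (by linarith)
    rw [hρ] at *
    linarith
  have hfinal : (2 : ℝ) ^ U * K * (N / (κ * ℓ * √(κ * ℓ))) *
        (∑ i ∈ Ioc 0 ⌊(2 * ℓ) ^ c⌋₊, (i : ℝ) / Nat.totient i) * ∑ k ∈ Ioc 0 N, hf k / k ≤
      N * (2 * K * K' * D / (κ * √κ) * ((2 + Real.log ℓ) * ℓ ^ (-(ρ / 2)))) := by
    calc (2 : ℝ) ^ U * K * (N / (κ * ℓ * √(κ * ℓ))) *
          (∑ i ∈ Ioc 0 ⌊(2 * ℓ) ^ c⌋₊, (i : ℝ) / Nat.totient i) * ∑ k ∈ Ioc 0 N, hf k / k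
        ≤ (2 : ℝ) ^ U * K * (N / (κ * ℓ * √(κ * ℓ))) *
          ((2 * ℓ ^ c) * (D * (2 + Real.log ℓ))) * (K' * √ℓ) := by
          refine mul_le_mul ?_ hKS' hks0 (by positivity)
          refine mul_le_mul_of_nonneg_left (hDs.trans ?_) hpre
          exact mul_le_mul_of_nonneg_right hz (by positivity)
      _ = N * (2 * K * K' * D / (κ * √κ)) * (2 + Real.log ℓ) / ℓ *
          (ℓ ^ ((1 + ρ / 2) * Real.log 2) * ℓ ^ c) := by
          rw [Real.sqrt_mul hκ0.le, h2U]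
          generalize ℓ ^ ((1 + ρ / 2) * Real.log 2) = a
          generalize ℓ ^ c = b
          field_simp
      _ ≤ N * (2 * K * K' * D / (κ * √κ)) * (2 + Real.log ℓ) / ℓ * (ℓ * ℓ ^ (-(ρ / 2))) :=
          mul_le_mul_of_nonneg_left hexp (by positivity)
      _ = _ := by
          generalize ℓ ^ (-(ρ / 2)) = a
          field_simp
  rw [div_le_iff₀ hN0]
  have hfin := hsplit.trans (add_le_add le_rfl ((hA.trans hB).trans (hE.le.trans hfinal)))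
  have e : ∀ a b : ℝ, a + N * b = (a / N + b) * N := by
    intro a b
    field_simp
  exact hfin.trans (le_of_eq (e _ _))

end Pool.Agent.Helper84.HD
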