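import Pool.Agent.Helper84.HD.SP1

/-!
# HD MODULE SP: the weighted sieve
-/

set_option autoImplicit false

namespace Pool.Agent.Helper84.HD

open Finset ArithmeticFunction Filter Topology
open Pool.Agent.Helper15.AB (StMV StMT om)

theorem hf_nonneg (n : ℕ) : 0 ≤ hf n := by
  unfold hf
  positivity

theorem hf_le_one (n : ℕ) : hf n ≤ 1 := by
  unfold hf
  exact pow_le_one₀ (by norm_num) (by norm_num)

theorem om_le {P : Finset ℕ} {n : ℕ} (hn : n ≠ 0) (hP : ∀ l ∈ P, l.Prime) :
    om P n ≤ cardFactors n := by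
  have h1 : P.filter (fun l => l ∣ n) ⊆ n.primeFactors := by
    intro l hl
    rw [mem_filter] at hl
    exact Nat.mem_primeFactors.mpr ⟨hP l hl.1, hl.2, hn⟩
  have h2 := card_le_card h1
  have h3 : n.primeFactors.card ≤ cardFactors n := by
    rw [cardFactors_apply]
    exact List.toFinset_card_le _
  exact h2.trans h3

theorem hf_le_om {P : Finset ℕ} {n : ℕ} (hn : n ≠ 0) (hP : ∀ l ∈ P, l.Prime) :
    hf n ≤ (1 / 2 : ℝ) ^ om P n := by
  unfold hf
  exact pow_le_pow_of_le_one (by norm_num) (by norm_num) (om_le hn hP)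

/-- `(log H)^(3/2) ≤ 3 √H` -/
theorem log32 {H : ℝ} (hH : 2 ≤ H) : Real.log H * √(Real.log H) ≤ 3 * √H := by
  have hl : 0 < Real.log H := Real.log_pos (by linarith)
  have h := Real.pow_div_factorial_le_exp (Real.log H) hl.le 3
  rw [Real.exp_log (by linarith)] at h
  have e : ((Nat.factorial 3 : ℕ) : ℝ) = 6 := by norm_num [Nat.factorial]
  rw [e, div_le_iff₀ (by norm_num)] at h
  have h2 : (Real.log H * √(Real.log H)) ^ 2 ≤ (3 * √H) ^ 2 := by
    rw [mul_pow, mul_pow, Real.sq_sqrt hl.le, Real.sq_sqrt (by linarith)]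
    nlinarith
  exact (pow_le_pow_iff_left₀ (by positivity) (by positivity) two_ne_zero).mp h2

theorem hSP : StSP := by
  have hMT := Pool.Agent.Helper15.AB.hMT
  obtain ⟨C, c₀, hC, hc0, hc1, hs⟩ := sum_SP (Pool.Agent.Helper15.AB.hMV hMT)
  obtain ⟨T, hT, hM⟩ := hMT
  set K₁ : ℝ := 2 / c₀ * √(2 / c₀) with hK₁
  set K₂ : ℝ := C * (Real.exp ((T + 1) / 2) / √c₀) with hK₂
  have hK₁0 : 0 < K₁ := by positivity
  have hK₂0 : 0 < K₂ := by positivity
  refine ⟨K₁ + K₂ + 3 * C, by positivity, ?_⟩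
  intro i H hi hH
  have hH2 : (2 : ℝ) ≤ H := by exact_mod_cast hH
  have hH0 : (0 : ℝ) < H := by linarith
  have hl : 0 < Real.log H := Real.log_pos (by linarith)
  have hsl : 0 < √(Real.log H) := Real.sqrt_pos.mpr hl
  have hr1 := one_le_ratio_SP i hi
  have hq0 : 0 < (H : ℝ) / (Real.log H * √(Real.log H)) := by positivity
  by_cases hcase : (H : ℝ) ^ c₀ < 3
  · -- bounded `H`
    have h1 : ∑ L ∈ (Ioc 0 H).filter (fun L => (i * L + 1).Prime), hf L ≤ H := by
      calc ∑ L ∈ (Ioc 0 H).filter (fun L => (i * L + 1).Prime), hf L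
          ≤ ∑ L ∈ (Ioc 0 H).filter (fun L => (i * L + 1).Prime), (1 : ℝ) :=
            sum_le_sum fun L _ => hf_le_one L
        _ = (((Ioc 0 H).filter (fun L => (i * L + 1).Prime)).card : ℝ) := by simp
        _ ≤ H := by
            have := card_filter_le (Ioc 0 H) (fun L => (i * L + 1).Prime)
            rw [Nat.card_Ioc, Nat.sub_zero] at this
            exact_mod_cast this
    have h2 : Real.log H ≤ 2 / c₀ := by
      have h3 : Real.log ((H : ℝ) ^ c₀) < Real.log 3 := Real.log_lt_log (by positivity) hcase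
      rw [Real.log_rpow hH0] at h3
      have h4 : Real.log 3 < 2 := by
        rw [Real.log_lt_iff_lt_exp (by norm_num)]
        have h5 := Real.add_one_le_exp (2 : ℝ)
        have h6 : (2 : ℝ) + 1 ≠ Real.exp 2 := ne_of_lt (Real.add_one_lt_exp (by norm_num))
        have h7 := lt_of_le_of_ne h5 h6
        linarith
      rw [le_div_iff₀ hc0]
      linarith
    have h3 : Real.log H * √(Real.log H) ≤ K₁ := by
      rw [hK₁]
      exact mul_le_mul h2 (Real.sqrt_le_sqrt h2) hsl.le (by positivity)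
    have h4 : (H : ℝ) ≤ K₁ * (H / (Real.log H * √(Real.log H))) := by
      rw [mul_div_assoc', le_div_iff₀ (by positivity)]
      nlinarith
    calc ∑ L ∈ (Ioc 0 H).filter (fun L => (i * L + 1).Prime), hf L ≤ H := h1
      _ ≤ K₁ * (H / (Real.log H * √(Real.log H))) := h4
      _ ≤ K₁ * ((i : ℝ) / Nat.totient i) * (H / (Real.log H * √(Real.log H))) := by
          refine mul_le_mul_of_nonneg_right ?_ hq0.le
          exact le_mul_of_one_le_right hK₁0.le hr1
      _ ≤ (K₁ + K₂ + 3 * C) * ((i : ℝ) / Nat.totient i) * (H / (Real.log H * √(Real.log H))) := by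
          refine mul_le_mul_of_nonneg_right ?_ hq0.le
          refine mul_le_mul_of_nonneg_right ?_ (by linarith)
          linarith
  · push Not at hcase
    set P : Finset ℕ := (Ioc 3 ⌊(H : ℝ) ^ c₀⌋₊).filter Nat.Prime with hP
    have hPp : ∀ l ∈ P, l.Prime := by
      intro l hl
      rw [hP, mem_filter] at hl
      exact hl.2
    have hPb : ∀ l ∈ P, l.Prime ∧ 3 < l ∧ (l : ℝ) ≤ (H : ℝ) ^ c₀ := by
      intro l hl
      rw [hP, mem_filter, mem_Ioc] at hl
      refine ⟨hl.2, hl.1.1, ?_⟩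
      exact (Nat.le_floor_iff (by positivity)).mp hl.1.2
    have h1 := hs (1 / 2) i 0 H P (by norm_num) (by norm_num) hi hH hPb
    rw [Nat.zero_add] at h1
    have h2 : ∑ L ∈ (Ioc 0 H).filter (fun L => (i * L + 1).Prime), hf L ≤
        ∑ e ∈ (Ioc 0 H).filter (fun e => (i * e + 1).Prime), (1 / 2 : ℝ) ^ om P e := by
      refine sum_le_sum fun L hL => ?_
      rw [mem_filter, mem_Ioc] at hL
      exact hf_le_om (by omega) hPp
    -- the product
    have h3 : ∏ l ∈ P, (1 - (1 - 1 / 2) / (l : ℝ)) ≤ Real.exp (-(1 / 2) * ∑ l ∈ P, 1 / (l : ℝ)) := by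
      rw [mul_sum, Real.exp_sum]
      refine prod_le_prod (fun l hl => ?_) (fun l _ => ?_)
      · have h3l : (3 : ℝ) < l := by exact_mod_cast (hPb l hl).2.1
        have : (1 - 1 / 2) / (l : ℝ) ≤ 1 := by
          rw [div_le_one (by linarith)]
          linarith
        linarith
      · have := Real.add_one_le_exp (-(1 / 2) * (1 / (l : ℝ)))
        refine le_trans (le_of_eq ?_) this
        ring
    have h4 : Real.log (c₀ * Real.log H) - T - 1 ≤ ∑ l ∈ P, 1 / (l : ℝ) := by
      have h5 := (abs_le.mp (hM ((H : ℝ) ^ c₀) hcase)).1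
      rw [Real.log_rpow hH0] at h5
      have h6 : ∑ l ∈ (Icc 1 ⌊(H : ℝ) ^ c₀⌋₊).filter Nat.Prime, (1 : ℝ) / l ≤
          ∑ l ∈ P ∪ {2, 3}, (1 : ℝ) / l := by
        refine sum_le_sum_of_subset_of_nonneg ?_ (fun _ _ _ => by positivity)
        intro l hl
        rw [mem_filter, mem_Icc] at hl
        rw [mem_union]
        by_cases h : 3 < l
        · left
          rw [hP, mem_filter, mem_Ioc]
          exact ⟨⟨h, hl.1.2⟩, hl.2⟩
        · right
          have := hl.2.two_le
          rw [mem_insert, mem_singleton]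
          omega
      have h7 : ∑ l ∈ P ∪ {2, 3}, (1 : ℝ) / l ≤ ∑ l ∈ P, (1 : ℝ) / l + ∑ l ∈ ({2, 3} : Finset ℕ), (1 : ℝ) / l := by
        have h8 := sum_union_inter (s₁ := P) (s₂ := {2, 3}) (f := fun l : ℕ => (1 : ℝ) / l)
        have h9 : 0 ≤ ∑ l ∈ P ∩ {2, 3}, (1 : ℝ) / (l : ℝ) := sum_nonneg fun _ _ => by positivity
        linarith
      have h8 : ∑ l ∈ ({2, 3} : Finset ℕ), (1 : ℝ) / l = 5 / 6 := by
        rw [sum_insert (by decide), sum_singleton]
        norm_num
      linarith
    have hcl : 0 < c₀ * Real.log H := by positivity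
    have h5 : ∏ l ∈ P, (1 - (1 - 1 / 2) / (l : ℝ)) ≤ Real.exp ((T + 1) / 2) / √c₀ / √(Real.log H) := by
      refine h3.trans ?_
      have h6 : -(1 / 2) * ∑ l ∈ P, 1 / (l : ℝ) ≤ (T + 1) / 2 - Real.log (√(c₀ * Real.log H)) := by
        rw [Real.log_sqrt hcl.le]
        linarith
      refine (Real.exp_le_exp.mpr h6).trans (le_of_eq ?_)
      rw [Real.exp_sub, Real.exp_log (Real.sqrt_pos.mpr hcl), Real.sqrt_mul hc0.le, div_div]
    have h6 : C * (H / Real.log H) * (i / Nat.totient i) * ∏ l ∈ P, (1 - (1 - 1 / 2) / (l : ℝ)) ≤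
        K₂ * ((i : ℝ) / Nat.totient i) * (H / (Real.log H * √(Real.log H))) := by
      have h7 : 0 ≤ C * (H / Real.log H) * ((i : ℝ) / Nat.totient i) := by
        have : 0 ≤ (i : ℝ) / Nat.totient i := by linarith
        positivity
      refine (mul_le_mul_of_nonneg_left h5 h7).trans (le_of_eq ?_)
      rw [hK₂]
      generalize (i : ℝ) / Nat.totient i = y
      generalize Real.exp ((T + 1) / 2) / √c₀ = z
      field_simp
    have h7 : C * √H ≤ 3 * C * ((i : ℝ) / Nat.totient i) * (H / (Real.log H * √(Real.log H))) := by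
      have h8 : √H ≤ 3 * (H / (Real.log H * √(Real.log H))) := by
        rw [mul_div_assoc', le_div_iff₀ (by positivity)]
        have h9 := log32 hH2
        have h10 : √(H : ℝ) * √H = H := Real.mul_self_sqrt hH0.le
        have h11 : √(H : ℝ) * (Real.log H * √(Real.log H)) ≤ √H * (3 * √H) :=
          mul_le_mul_of_nonneg_left h9 (Real.sqrt_nonneg _)
        nlinarith
      calc C * √H ≤ C * (3 * (H / (Real.log H * √(Real.log H)))) :=
            mul_le_mul_of_nonneg_left h8 hC.le
        _ = 3 * C * 1 * (H / (Real.log H * √(Real.log H))) := by ring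
        _ ≤ 3 * C * ((i : ℝ) / Nat.totient i) * (H / (Real.log H * √(Real.log H))) := by
            refine mul_le_mul_of_nonneg_right ?_ hq0.le
            exact mul_le_mul_of_nonneg_left hr1 (by positivity)
    have h8 : 0 ≤ K₁ * ((i : ℝ) / Nat.totient i) * (H / (Real.log H * √(Real.log H))) := by
      have : 0 ≤ (i : ℝ) / Nat.totient i := by linarith
      positivity
    calc ∑ L ∈ (Ioc 0 H).filter (fun L => (i * L + 1).Prime), hf L
        ≤ C * (H / Real.log H) * (i / Nat.totient i) * ∏ l ∈ P, (1 - (1 - 1 / 2) / (l : ℝ)) +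
          C * √H := h2.trans h1
      _ ≤ K₂ * ((i : ℝ) / Nat.totient i) * (H / (Real.log H * √(Real.log H))) +
          3 * C * ((i : ℝ) / Nat.totient i) * (H / (Real.log H * √(Real.log H))) :=
          add_le_add h6 h7
      _ ≤ (K₁ + K₂ + 3 * C) * ((i : ℝ) / Nat.totient i) * (H / (Real.log H * √(Real.log H))) := by
          have e : (K₁ + K₂ + 3 * C) * ((i : ℝ) / Nat.totient i) * (H / (Real.log H * √(Real.log H))) =
            K₁ * ((i : ℝ) / Nat.totient i) * (H / (Real.log H * √(Real.log H))) +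
            (K₂ * ((i : ℝ) / Nat.totient i) * (H / (Real.log H * √(Real.log H))) +
            3 * C * ((i : ℝ) / Nat.totient i) * (H / (Real.log H * √(Real.log H)))) := by ring
          rw [e]
          linarith

end Pool.Agent.Helper84.HD
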