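import Pool.Agent.Helper4.DE5
import Pool.Agent.Helper15.AB.StMid

/-!
# Project HD (helper84), MP_8be7de_nt: Erdos's question for primes of small index

THEOREM SI. Let `c < 1 - log 2` and let `Q` be a set of primes such that for all large `q ∈ Q` the group generated
by `2` and `3` in `(ℤ/q)^*` has index at most `(log q)^c`. Let `h_Q(n)` be the least `m > 2` such that no prime of
`Q` divides all of `2^n-1, ..., m^n-1`. Then for every `p` the set `{n : h_Q(n) = p}` has a natural density.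
(`Q` = all primes is the question of the problem.)

CONVENTIONS (`Pool/Agent/Helper4/DE2 .. DE5`): `C S N` = number of `n ∈ S` with `1 ≤ n ≤ N` (real), `Lg S N` = sum
of `1/n` over these `n`, `t S = liminf C S N / N`, `IsMultClosed S`: `a ∈ S`, `b > 0` imply `a * b ∈ S`;
`logDens_of_multClosed : IsMultClosed S → LogDens S (t S)`, i.e. `Lg S N / log N → t S`.
-/

set_option autoImplicit false

namespace Pool.Agent.Helper84.HD

open Finset Filter Topology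
open Pool.Agent.Helper4.DE (C Lg LogDens IsMultClosed t D Z)

/-- the positive multiples of the elements of `B` -/
def MB (B : Set ℕ) : Set ℕ := {n | 0 < n ∧ ∃ b ∈ B, b ∣ n}

/-- `2 ^ (-Ω(n))` -/
noncomputable def hf (n : ℕ) : ℝ := (1 / 2 : ℝ) ^ (ArithmeticFunction.cardFactors n)

/-- MODULE DE (Davenport-Erdos, 60-90 lines). `theorem hDE : StDE`.
PROOF. Let `S = MB B`, `S_T = MB (B ∩ Iic T)`, increasing in `T` with union `S`; all are `IsMultClosed`. Let `s` be the supremum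
of the `t (S_T)` (`t` is monotone, `t ≤ 1`: `t_le_one`). For `δ > 0` the series `D S δ = ∑' a, gS δ S a / a` of nonnegative
terms (`summable_gS_div`, `gS_nonneg`) is the supremum over `T` of the `D (S_T) δ`: a finite partial sum over `a ≤ T` of
`D S δ` only sees `a ∈ S`, `a ≤ T`, and such `a` is in `S_T` (the `b ∈ B` dividing `a` is `≤ a ≤ T`). So by `D_le`:
`D S δ ≤ s * Z δ`. Also `(t S - η) * Z δ - O(1) ≤ D S δ` : by `hasSum_C`/`sum_w_le` (`DE3`, `DE4`):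
`D S δ - t S * Z δ` is the sum of `w δ (n+1) * (C S (n+1)/(n+1) - t S)`, the terms with `n` large are `≥ -η w δ (n+1)`
(`eventually_gt`), the sum of all `w δ (n+1)` is `Z δ` (`hasSum_w`), and the finitely many others are bounded below by
`- w δ (n+1) ≥ - (n+1)` (`t ≤ 1`, `w δ n ≤ n * u δ n ≤ n`); multiply by `δ` and let `δ → 0+`: `δ Z δ → 1` (`Z_tendsto`). So
`t S ≤ s`. Finally choose `T` with `t (S_T) ≥ s - ε`. -/
def StDE : Prop := ∀ (B : Set ℕ) (ε : ℝ), 0 < ε → ∃ T : ℕ, t (MB B) - t (MB (B ∩ Set.Iic T)) ≤ ε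

/-- MODULE PD (periodic sets, 40-70 lines). `theorem hPD : StPD`.
PROOF. `S = MB (B ∩ Iic T)`: for `n > 0`, `n ∈ S` iff `n + T! ∈ S` (every `b ∈ B ∩ Iic T` that divides a positive integer is
positive, so it divides `T!`). So membership of `n > 0` depends on `n % T!` only (`Nat.count_modEq_card`, or
`Nat.filter_Ico_card_eq_of_periodic`, or directly): `C S (N + T!) = C S N + k` with a constant `k`, hence
`|C S N - (k / T!) N| ≤ T!`, and `C S N / N → k / T!`; a limit is the `liminf` `t S` (`Tendsto.liminf_eq`). -/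
def StPD : Prop := ∀ (B : Set ℕ) (T : ℕ),
  Tendsto (fun N : ℕ => C (MB (B ∩ Set.Iic T)) N / N) atTop (𝓝 (t (MB (B ∩ Set.Iic T))))

/-- MODULE SM (smooth integers, 60-90 lines). `theorem hSM : StSM`.
PROOF. `y = N ^ κ`. For every `n ≤ N` all of whose prime factors are `≤ y`: `log n = ∑ (p, a), p prime, a ≥ 1, p ^ a ∣ n, log p`
(`ArithmeticFunction.vonMangoldt_sum`, or `Nat.factorization`), all the `p ≤ y`. Sum over `n ≤ N`:
`∑ log n ≤ ∑_{p ≤ y} ∑_{a ≥ 1} (N / p^a) log p = N ∑_{p ≤ y} log p / (p - 1) ≤ N (2 ∑_{p ≤ y} log p / p) ≤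
2 N (log y + log 4)` for `y ≥ 1` (`Pool.Agent.Helper28.PC.mertens_upper` in `Helper28/PC/Mert.lean`: `∑ p ∈ n.primesLE, log p / p ≤
log n + log 4`; a cruder constant is fine). Those `n > √N` have `log n ≥ (log N)/2`, so their number is at most
`4 N (κ log N + log 4)/log N`, and there are at most `√N` others. For large `N` the total is `≤ K κ N`, `K = 6`. -/
def StSM : Prop := ∃ K : ℝ, 0 < K ∧ ∀ κ : ℝ, 0 < κ → κ < 1 → ∀ᶠ N : ℕ in atTop,
  C {n | ∀ p : ℕ, p.Prime → p ∣ n → (p : ℝ) ≤ (N : ℝ) ^ κ} N ≤ K * κ * N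

/-- MODULE AA (a large prime factor can be removed, 60-100 lines). `theorem hAA : StAA`.
PROOF. Let `n` be counted, `P` as given, `m = n / P`. Then `1 ≤ m`, `m ∈ S`, `m ∉ S'` (otherwise `n = m * P ∈ S'`), and
`N^κ < P ≤ N / m`. So the number is at most `∑ m ∈ (Ioc 0 N), m ∈ S \ S', N^κ < N/m, #{P prime, P ≤ N / m}`. By Chebyshev
(`Chebyshev.pi_le_log4_mul_div`: `π ⌊x⌋₊ ≤ log 4 * x / log √x + √x` for `x > 1`; with `√x ≤ 2 x / log x`...) there is `K` with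
`#{P ≤ x prime} ≤ K x / log x` for real `x ≥ 2`, so for `x = N/m > N^κ` (large `N`: `N^κ ≥ 2`) it is at most
`K (N/m) / (κ log N)`. Sum over `m`. -/
def StAA : Prop := ∃ K : ℝ, 0 < K ∧ ∀ (S S' : Set ℕ) (κ : ℝ), 0 < κ → κ < 1 → IsMultClosed S' →
  ∀ᶠ N : ℕ in atTop,
    C {n | n ∉ S' ∧ ∃ P : ℕ, P.Prime ∧ (N : ℝ) ^ κ < P ∧ P ∣ n ∧ n / P ∈ S} N ≤
      K / κ * N * (Lg (S \ S') N / Real.log N)

/-- MODULE CR (the criterion, helper84). `theorem hCR (hDE : StDE) (hPD : StPD) (hSM : StSM) (hAA : StAA) : StCR`.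
PROOF. `S = MB B`, `S_T = MB (B ∩ Iic T)`. For `n ∈ S \ S_T`, `n ≤ N`: (a) `n/P ∈ S` for some prime `P > N^κ` dividing `n` (AA, with
`Lg (S \ S_T) N / log N → t S - t S_T`), or (b) all prime factors of `n` are `≤ N^κ` (SM), or (c) every `b ∈ B` with `b ∣ n` is
divisible by the prime factors `P > N^κ` of `n` (otherwise `b ∣ n / P`): hypothesis. -/
def StCR : Prop := ∀ B : Set ℕ,
  (∀ κ : ℝ, 0 < κ → κ < 1 → Tendsto (fun N : ℕ =>
    C {n | ∃ b ∈ B, b ∣ n ∧ ∃ P : ℕ, P.Prime ∧ (N : ℝ) ^ κ < P ∧ P ∣ b} N / N) atTop (𝓝 0)) →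
  Tendsto (fun N : ℕ => C (MB B) N / N) atTop (𝓝 (t (MB B)))

/-- MODULE SP (sieve, helper84). `∑_{L ≤ H, i L + 1 prime} 2^(-Ω(L)) ≪ i/φ(i) H/(log H)^(3/2)`. -/
def StSP : Prop := ∃ K : ℝ, 0 < K ∧ ∀ i H : ℕ, 1 ≤ i → 2 ≤ H →
  ∑ L ∈ (Ioc 0 H).filter (fun L => (i * L + 1).Prime), hf L ≤
    K * ((i : ℝ) / Nat.totient i) * (H / (Real.log H * √(Real.log H)))

/-- MODULE KS (60-100 lines). `theorem hKS : StKS`.
PROOF. `hf` is completely multiplicative (`ArithmeticFunction.cardFactors_mul`), `hf p = 1/2`. All `k ≤ N` are `N`-smooth, so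
`∑ k ∈ Ioc 0 N, hf k / k ≤ ∑' k ∈ smoothNumbers (N+1), hf k / k = ∏ p ∈ primesBelow (N+1), (1 - 1/(2p))⁻¹`
(`EulerProduct.summable_and_hasSum_smoothNumbers_prod_primesBelow_geometric` for the completely multiplicative function
`k ↦ hf k / k`; or directly by induction over the primes). `(1 - x)⁻¹ ≤ exp (x + 2 x²)`, `x = 1/(2p) ≤ 1/4`; so the product is at
most `exp (½ ∑_{p ≤ N} 1/p + ½ ∑ 1/p²) ≤ exp (½ (log log N + 5) + 1)` (`Pool.Agent.Helper28.PC.sum_inv_le` in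
`Helper28/PC/Mert.lean`: `∑ p ∈ n.primesLE, 1/p ≤ log (log n) + 5`). -/
def StKS : Prop := ∃ K : ℝ, 0 < K ∧ ∀ N : ℕ, 2 ≤ N → ∑ k ∈ Ioc 0 N, hf k / k ≤ K * √(Real.log N)

/-- MODULE TU (Hardy-Ramanujan, 100-150 lines). `theorem hTU : StTU`.
PROOF. `Ω = ω + (Ω - ω)`. Let `L = log log N`, `η' = η/2`, may assume `η ≤ 1`. (1) `∑_{n ≤ N} (Ω - ω)(n) = ∑_{p} ∑_{a ≥ 2} ⌊N/p^a⌋ ≤
N ∑_p 1/(p(p-1)) ≤ 2 N` (for instance `(Ω - ω)(n) = #{(p,a) : a ≥ 2, p^a ∣ n}`, `∑_{m ≥ 2} 1/(m(m-1)) = 1`), so at most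
`2 N/(η' L) = o(N)` of the `n` have `Ω(n) - ω(n) ≥ η' L`. (2) With `u = η'` : `(1+u)^ω(n) = ∑_{d ∣ n, d squarefree} u^ω(d)`, so
`∑_{n ≤ N} (1+u)^ω(n) ≤ N ∑_{d ≤ N squarefree} u^ω(d)/d ≤ N ∏_{p ≤ N} (1 + u/p) ≤ N exp (u ∑_{p ≤ N} 1/p) ≤ N exp (u (L + 5))`
(`Pool.Agent.Helper28.PC.sum_inv_le`). So the number of `n ≤ N` with `ω(n) > (1+η') L` is at most
`N exp (u (L + 5) - (1+η') L log (1+u)) = N e^(5u) exp (-L ((1+u) log (1+u) - u)) = o(N)`, as `(1+u) log (1+u) > u` for `u > 0`.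
If `Ω(n) > (1+η) L` then one of the two happens. -/
def StTU : Prop := ∀ η : ℝ, 0 < η → Tendsto (fun N : ℕ =>
  C {n | (1 + η) * Real.log (Real.log N) < ArithmeticFunction.cardFactors n} N / N) atTop (𝓝 0)

/-- MODULE NE (helper84). `theorem hNE (hSP : StSP) (hKS : StKS) (hTU : StTU) : StNE`. -/
def StNE : Prop := ∀ c κ : ℝ, 0 < c → c < 1 - Real.log 2 → 0 < κ → κ < 1 → Tendsto (fun N : ℕ =>
  C {n | ∃ i L : ℕ, 1 ≤ i ∧ (i : ℝ) ≤ (2 * Real.log N) ^ c ∧ (N : ℝ) ^ κ ≤ L ∧ L ∣ n ∧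
    (i * L + 1).Prime} N / N) atTop (𝓝 0)

/-- the integers `n ≥ 1` for which a prime of `Q` divides all of `2^n-1, ..., m^n-1` -/
def DQ (Q : Set ℕ) (m : ℕ) : Set ℕ :=
  {n | 0 < n ∧ ∃ q ∈ Q, q ∣ (Finset.Icc 2 m).gcd (fun k => k ^ n - 1)}

/-- the primes of `Q` have small index -/
def SmallIndex (c : ℝ) (Q : Set ℕ) : Prop :=
  (∀ q ∈ Q, q.Prime) ∧ ∃ q₀ : ℕ, ∀ q ∈ Q, q₀ ≤ q →
    (q : ℝ) - 1 ≤ Real.log q ^ c * Nat.lcm (orderOf (2 : ZMod q)) (orderOf (3 : ZMod q))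

/-- MODULE FI (helper84). `theorem hFI (hCR : StCR) (hNE : StNE) : StFI`. -/
def StFI : Prop := ∀ (c : ℝ) (Q : Set ℕ), c < 1 - Real.log 2 → SmallIndex c Q → ∀ m : ℕ, 3 ≤ m →
  ∃ d : ℝ, Tendsto (fun N : ℕ => C (DQ Q m) N / N) atTop (𝓝 d)

end Pool.Agent.Helper84.HD
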